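import Mathlib

/-!
# A finite inverse semigroup of knit degree two

The monogenic inverse semigroup (with 16 elements) generated by the partial bijection
`0 → 1 → 2 → 0`, `3 → 4 → 5` of six points has knit degree `2`.
-/

namespace Pool.Agent.Results.MP_90db2d_al.KnitDegreeTwo

/-- `S` is an inverse semigroup: every element has exactly one inverse. -/
def IsInverse (S : Type) [Semigroup S] : Prop :=
  ∀ x : S, ∃! y : S, x * y * x = x ∧ y * x * y = y

/-- `x` lies in the center of `S`. -/
def Central {S : Type} [Semigroup S] (x : S) : Prop := ∀ y : S, x * y = y * x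

/-- The commuting graph of `S`: the vertices are the non-central elements, and two distinct
vertices are adjacent if they commute. -/
def commGraph (S : Type) [Semigroup S] : SimpleGraph {x : S // ¬ Central x} where
  Adj x y := x ≠ y ∧ x.1 * y.1 = y.1 * x.1
  symm := ⟨fun _ _ h => ⟨h.1.symm, h.2.symm⟩⟩
  loopless := ⟨fun _ h => h.1 rfl⟩

/-- A path in the sense of the problem: the edges are pairwise distinct, and the vertices are
pairwise distinct except that the first one and the last one may coincide. -/
def IsPathP {S : Type} [Semigroup S] {u v : {x : S // ¬ Central x}}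
    (p : (commGraph S).Walk u v) : Prop :=
  p.edges.Nodup ∧ (p.support.Nodup ∨ (u = v ∧ p.support.tail.Nodup))

/-- A left path: a path from `u` to `v ≠ u` with `u x = v x` for all its vertices `x`. -/
def IsLeftPath {S : Type} [Semigroup S] {u v : {x : S // ¬ Central x}}
    (p : (commGraph S).Walk u v) : Prop :=
  IsPathP p ∧ u ≠ v ∧ ∀ w ∈ p.support, u.1 * w.1 = v.1 * w.1

/-- The set of lengths of the left paths of the commuting graph. -/
def leftLengths (S : Type) [Semigroup S] : Set ℕ :=
  {n | ∃ (u v : {x : S // ¬ Central x}) (p : (commGraph S).Walk u v),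
    IsLeftPath p ∧ p.length = n}

/-- The knit degree (meaningful if there is a left path): the least length of a left path. -/
noncomputable def kd (S : Type) [Semigroup S] : ℕ := sInf (leftLengths S)

/-! ### The example -/

/-- the multiplication table, sixteen hexadecimal digits for each row -/
def T : ℕ :=
  0xf66cbabcb65f6cab6e6cbc98b6beec8966dcbcbc76b6d2c7cccb6b6b6c6ccbb6bbb6c6c6cbcbb66ccacb6bf56c6aab5f9bb6cec6cb89b6eccc8b6b6bec6c89beb7b6c62dcbc776d2666cbcbcb6b66ccbbb56c6c6abcb5f6afe6cba98b654ec196edcbc9876be32802ccb676b6cd2cb76ca8b6bf5ec6a195497b6ce2dcb807632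

/-- the table of inverses -/
def IT : ℕ := 0xfedbc9a786243501

/-- multiplication of indices -/
def m (a b : ℕ) : ℕ := (T >>> (4 * (16 * a + b))) % 16

/-- inverse of an index -/
def iv (a : ℕ) : ℕ := (IT >>> (4 * a)) % 16

/-- The carrier. -/
def K : Type := Fin 16

instance : Mul K := ⟨fun a b => ⟨m a.val b.val, Nat.mod_lt _ (by norm_num)⟩⟩

lemma m_assoc : ∀ a < 16, ∀ b < 16, ∀ c < 16, m (m a b) c = m a (m b c) := by
  decide +kernel

instance : Semigroup K where
  mul_assoc a b c := Fin.ext (m_assoc a.val a.isLt b.val b.isLt c.val c.isLt)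

lemma val_mul (a b : K) : (a * b).val = m a.val b.val := rfl

lemma iv_lt (a : ℕ) : iv a < 16 := Nat.mod_lt _ (by norm_num)

lemma m_iv : ∀ a < 16, m (m a (iv a)) a = a ∧ m (m (iv a) a) (iv a) = iv a := by
  decide +kernel

lemma m_iv_unique : ∀ a < 16, ∀ b < 16, m (m a b) a = a → m (m b a) b = b → b = iv a := by
  decide +kernel

lemma isInverse_K : IsInverse K := by
  intro x
  refine ⟨(⟨iv x.val, iv_lt _⟩ : Fin 16), ⟨?_, ?_⟩, ?_⟩
  · exact Fin.ext (m_iv x.val x.isLt).1
  · exact Fin.ext (m_iv x.val x.isLt).2
  · rintro y ⟨h1, h2⟩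
    exact Fin.ext (m_iv_unique x.val x.isLt y.val y.isLt (congrArg Fin.val h1)
      (congrArg Fin.val h2))

lemma central_iff (x : K) : Central x ↔ ∀ b < 16, m x.val b = m b x.val := by
  constructor
  · intro h b hb
    exact congrArg Fin.val (h (⟨b, hb⟩ : Fin 16))
  · intro h y
    exact Fin.ext (h y.val y.isLt)

/-- the index `a` is central -/
def cen (a : ℕ) : Bool := (List.range 16).all fun c => m a c == m c a

lemma cen_spec {a : ℕ} (h : cen a = true) : ∀ c < 16, m a c = m c a := by
  intro c hc
  have := (List.all_eq_true.1 h) c (List.mem_range.2 hc)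
  simpa using this

/-- No two distinct commuting non-central elements `u, v` satisfy `u u = v u` and
`u v = v v`. -/
lemma no_short : ∀ a < 16, ∀ b < 16, (m a a = m b a ∧ m a b = m b b ∧ m a b = m b a) →
    (a = b ∨ cen a = true ∨ cen b = true) := by
  decide +kernel

/-- the element with index `a` -/
def k (a : ℕ) (h : a < 16) : K := (⟨a, h⟩ : Fin 16)

lemma nc_of {a : ℕ} (h : a < 16) (c : ℕ) (hc : c < 16) (hn : m a c ≠ m c a) :
    ¬ Central (k a h) := fun hh => hn ((central_iff _).1 hh c hc)

lemma nc0 : ¬ Central (k 0 (by norm_num)) :=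
  nc_of _ 1 (by norm_num) (by decide +kernel)

lemma nc2 : ¬ Central (k 2 (by norm_num)) :=
  nc_of _ 1 (by norm_num) (by decide +kernel)

lemma nc7 : ¬ Central (k 7 (by norm_num)) :=
  nc_of _ 0 (by norm_num) (by decide +kernel)

/-- the generator -/
def v0 : {x : K // ¬ Central x} := ⟨_, nc0⟩
/-- its square -/
def v2 : {x : K // ¬ Central x} := ⟨_, nc2⟩
/-- the restriction of the generator to the set of points with two predecessors or in the cycle -/
def v7 : {x : K // ¬ Central x} := ⟨_, nc7⟩

lemma ne_of_val {x y : {x : K // ¬ Central x}} (h : x.1.val ≠ y.1.val) : x ≠ y :=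
  fun e => h (by rw [e])

lemma adj02 : (commGraph K).Adj v0 v2 :=
  ⟨ne_of_val (by decide), Fin.ext (by decide +kernel)⟩

lemma adj27 : (commGraph K).Adj v2 v7 :=
  ⟨ne_of_val (by decide), Fin.ext (by decide +kernel)⟩

lemma two_mem : 2 ∈ leftLengths K := by
  refine ⟨v0, v7, SimpleGraph.Walk.cons adj02 (SimpleGraph.Walk.cons adj27
    SimpleGraph.Walk.nil), ⟨⟨?_, Or.inl ?_⟩, ne_of_val (by decide), ?_⟩, rfl⟩
  · simp only [SimpleGraph.Walk.edges_cons, SimpleGraph.Walk.edges_nil, List.nodup_cons,
      List.mem_singleton, List.not_mem_nil, not_false_eq_true, List.nodup_nil, and_true]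
    intro h
    rw [Sym2.eq_iff] at h
    rcases h with ⟨h, -⟩ | ⟨h, -⟩
    · exact ne_of_val (by decide) h
    · exact ne_of_val (x := v0) (y := v7) (by decide) h
  · simp only [SimpleGraph.Walk.support_cons, SimpleGraph.Walk.support_nil, List.nodup_cons,
      List.mem_cons, List.not_mem_nil, or_false, not_or, not_false_eq_true, List.nodup_nil,
      and_true]
    exact ⟨⟨ne_of_val (by decide), ne_of_val (by decide)⟩, ne_of_val (by decide)⟩
  · intro w hw
    simp only [SimpleGraph.Walk.support_cons, SimpleGraph.Walk.support_nil,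
      List.mem_cons, List.not_mem_nil, or_false] at hw
    rcases hw with rfl | rfl | rfl
    · exact Fin.ext (by decide +kernel)
    · exact Fin.ext (by decide +kernel)
    · exact Fin.ext (by decide +kernel)

lemma two_le {n : ℕ} (hn : n ∈ leftLengths K) : 2 ≤ n := by
  obtain ⟨u, v, p, ⟨-, huv, hl⟩, rfl⟩ := hn
  cases p with
  | nil => exact absurd rfl huv
  | @cons _ w _ h q =>
    cases q with
    | nil =>
      exfalso
      have h1 := hl u (SimpleGraph.Walk.start_mem_support _)
      have h2 := hl v (SimpleGraph.Walk.end_mem_support _)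
      have h3 := h.2
      rcases no_short u.1.val u.1.isLt v.1.val v.1.isLt ⟨congrArg Fin.val h1,
        congrArg Fin.val h2, congrArg Fin.val h3⟩ with e | e | e
      · exact huv (Subtype.ext (Fin.ext e))
      · exact u.2 ((central_iff _).2 (cen_spec e))
      · exact v.2 ((central_iff _).2 (cen_spec e))
    | cons h' q' => simp [SimpleGraph.Walk.length_cons]

/-- **There is a finite non-commutative inverse semigroup (with 16 elements) whose commuting
graph contains left paths and whose knit degree is 2, hence greater than 1.** -/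
theorem result : ∃ (S : Type) (_ : Semigroup S), Finite S ∧ Nat.card S = 16 ∧
    (∃ x y : S, x * y ≠ y * x) ∧ IsInverse S ∧ (leftLengths S).Nonempty ∧ kd S = 2 := by
  refine ⟨K, inferInstance, inferInstanceAs (Finite (Fin 16)), ?_, ?_, isInverse_K,
    ⟨2, two_mem⟩, ?_⟩
  · change Nat.card (Fin 16) = 16
    simp
  · refine ⟨k 0 (by norm_num), k 1 (by norm_num), fun h => ?_⟩
    have h' : m 0 1 = m 1 0 := congrArg Fin.val h
    exact absurd h' (by decide +kernel)
  · exact le_antisymm (Nat.sInf_le two_mem) (le_csInf ⟨2, two_mem⟩ fun n hn => two_le hn)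

end Pool.Agent.Results.MP_90db2d_al.KnitDegreeTwo
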